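import Mathlib
import Pool.Agent.Helper66.SB.Final

/-!
Non-speciality of the plane linear systems `D + m C`, where `C = (k; w_1, ..., w_r, 1^u)` is a class
of self-intersection zero, for all `m`, up to the boundary.
-/

set_option autoImplicit false

namespace Pool.Agent.Results.MP_d3128a_ag.SquareClasses

/-- Let `C0 = (k; w_i)`, `u = k ^ 2 - ∑ w_i ^ 2 ≥ 1`, `∑ w_i < 3 k`, `D = (δ; μ_i)`, such that any
three (or fewer) of the `w_i` have sum at most `k` and any three (or fewer) of the `μ_i` have sum at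
most `δ`. Let `n_l ≤ m` for `u` more points, and `x` simple points. Let
`χ i = C(δ + i k + 2, 2) - ∑ C(μ_j + i w_j + 1, 2)` (that is `χ(D + i C0)`) and
`B j = u - 3 k + ∑ w - 2 D.C0 - 2 ∑_l min(j, m - n_l)`. Then the system of degree `δ + m k` with
multiplicities `μ_i + m w_i`, `n_l` and `1` (`x` times) at general points is non-special if
`∑ μ_i ≤ 3 δ` or `19 (μ_j + i w_j) ^ 2 ≤ χ i` for all `i ≤ m` and all `j` beyond the first nine, and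
if moreover all `n_l ≥ m - 1`, or `B m ≥ 0`, or `∑_{1 ≤ j ≤ m} max (B j, 0) ≤ 2 χ(D)`; and also if
`m = 0` and `15 μ_j ^ 2 ≤ - χ(D)` for all `j` beyond the first nine. -/
theorem result :
    ∀ (r u x k δ m : ℕ) (w μ : Fin r → ℕ) (n : Fin u → ℕ) (χ B : ℕ → ℤ),
      (∀ I : Finset (Fin r), I.card ≤ 3 → ∑ i ∈ I, w i ≤ k ∧ ∑ i ∈ I, μ i ≤ δ) →
      ∑ i, w i < 3 * k → u + ∑ i, w i ^ 2 = k ^ 2 → 1 ≤ u → (∀ l, n l ≤ m) →
      (∀ i, χ i = (Nat.choose (δ + i * k + 2) 2 : ℤ) -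
        ∑ j, (Nat.choose (μ j + i * w j + 1) 2 : ℤ)) →
      (∀ j, B j = (u : ℤ) - 3 * k + ∑ i, (w i : ℤ) - 2 * ((k : ℤ) * δ - ∑ i, (μ i : ℤ) * w i) -
        2 * ∑ l, ((min j (m - n l) : ℕ) : ℤ)) →
      (((∑ i, μ i ≤ 3 * δ ∨
            ∀ i ≤ m, ∀ j : Fin r, 9 ≤ (j : ℕ) → 19 * ((μ j : ℤ) + i * w j) ^ 2 ≤ χ i) ∧
          ((∀ l, m ≤ n l + 1) ∨ 0 ≤ B m ∨
            ∑ j ∈ Finset.Icc 1 m, max (B j) 0 ≤ 2 * χ 0)) ∨
        (m = 0 ∧ ∀ j : Fin r, 9 ≤ (j : ℕ) → 15 * (μ j : ℤ) ^ 2 ≤ - χ 0)) →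
      ∀ (a : Fin r ⊕ Fin u ⊕ Fin x → ℕ) (d : ℕ), d = δ + m * k →
        (∀ i, a (Sum.inl i) = μ i + m * w i) → (∀ l, a (Sum.inr (Sum.inl l)) = n l) →
        (∀ t, a (Sum.inr (Sum.inr t)) = 1) →
      ∃ G : MvPolynomial ((Fin r ⊕ Fin u ⊕ Fin x) × Fin 3) ℂ, G ≠ 0 ∧
        ∀ P : Fin r ⊕ Fin u ⊕ Fin x → Fin 3 → ℂ, (∀ i, P i ≠ 0) →
          MvPolynomial.eval (fun ij : (Fin r ⊕ Fin u ⊕ Fin x) × Fin 3 => P ij.1 ij.2) G ≠ 0 →
          (Module.finrank ℂ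
            (↥(MvPolynomial.homogeneousSubmodule (Fin 3) ℂ d ⊓
              ⨅ i, Submodule.restrictScalars ℂ
                ((Ideal.span {g : MvPolynomial (Fin 3) ℂ |
                    g.IsHomogeneous 1 ∧ MvPolynomial.eval (P i) g = 0}) ^ (a i)
                  : Ideal (MvPolynomial (Fin 3) ℂ)))) : ℤ)
            = max ((Nat.choose (d + 2) 2 : ℤ) - ∑ i, (Nat.choose (a i + 1) 2 : ℤ)) 0 := by
  intro r u x k δ m w μ n χ B h3 hp hsq hu hn hχ hB h a d hd ha1 ha2 ha3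
  have ha : a = Sum.elim (fun i => μ i + m * w i) (Sum.elim n fun _ => 1) := by
    funext i
    rcases i with i | l | t
    · exact ha1 i
    · exact ha2 l
    · exact ha3 t
  obtain rfl : B = Pool.Agent.Helper66.SB.BB r u k δ m w μ n := funext fun j => hB j
  obtain rfl : χ = fun i => (Nat.choose (δ + i * k + 2) 2 : ℤ) -
        ∑ j, (Nat.choose (μ j + i * w j + 1) 2 : ℤ) := funext hχ
  subst ha
  subst hd
  refine Pool.Agent.Helper66.SB.final r u x k δ m w μ n h3 hp hsq hu hn ?_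
  have e0 : (Nat.choose (δ + 0 * k + 2) 2 : ℤ) - ∑ j, (Nat.choose (μ j + 0 * w j + 1) 2 : ℤ) =
      (Nat.choose (δ + 2) 2 : ℤ) - ∑ j, (Nat.choose (μ j + 1) 2 : ℤ) := by
    simp only [Nat.zero_mul, Nat.add_zero]
  rcases h with ⟨h1, h2⟩ | ⟨h1, h2⟩
  · refine Or.inl ⟨h1, ?_⟩
    rcases h2 with h2 | h2 | h2
    · exact Or.inl h2
    · exact Or.inr (Or.inl h2)
    · refine Or.inr (Or.inr ?_)
      rw [← e0]
      exact h2
  · refine Or.inr ⟨h1, ?_⟩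
    intro j hj
    rw [← e0]
    exact h2 j hj

end Pool.Agent.Results.MP_d3128a_ag.SquareClasses
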